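import Mathlib.Analysis.SpecialFunctions.Pow.Real
import Mathlib.Analysis.SpecialFunctions.Log.Basic
import Mathlib.Analysis.Complex.Basic

/-!
# The Ramanujan bound from a weaker bound over fields of large degree
-/

set_option autoImplicit false

namespace Pool.Agent.X308.Bc

open Filter Topology

/-- A class of triples `x` (number field `K`, nontrivial character of a Hecke algebra of weight two
over `K`, prime of `K`), with the degree `deg x` of `K`, the norm `q x` of the prime, the Satake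
parameters `α x`, `β x` (so that `α x + β x` is the Hecke eigenvalue) and base change to cyclic
extensions in which the prime is inert. -/
structure HeckeClass where
  /-- the triples -/
  Obj : Type
  /-- the degree of the field -/
  deg : Obj → ℕ
  /-- the norm of the prime -/
  q : Obj → ℝ
  /-- the first Satake parameter -/
  α : Obj → ℂ
  /-- the second Satake parameter -/
  β : Obj → ℂ
  deg_pos : ∀ x, 0 < deg x
  one_lt : ∀ x, 1 < q x
  norm_prod : ∀ x, ‖α x * β x‖ = q x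
  baseChange : ∀ (x : Obj) (m : ℕ), ∃ f, m ≤ f ∧ ∃ y, deg y = f * deg x ∧ q y = q x ^ f ∧
    α y = α x ^ f ∧ β y = β x ^ f

namespace HeckeClass

variable (C : HeckeClass)

/-- The bound of Ramanujan and Petersson. -/
def Ramanujan : Prop := ∀ x, ‖C.α x + C.β x‖ ≤ 2 * √(C.q x)

/-- For every `ε > 0` there are `A` and `D` such that the eigenvalues over the fields of degree
`n ≥ D` are at most `A e^(ε n) N^(1/2 + ε)`. -/
def WeakBound : Prop := ∀ ε : ℝ, 0 < ε → ∃ (A : ℝ) (D : ℕ), ∀ x, D ≤ C.deg x →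
  ‖C.α x + C.β x‖ ≤ A * Real.exp (ε * C.deg x) * C.q x ^ (1 / 2 + ε)

variable {C}

/-- A geometric sequence which grows slower than all exponentials. -/
lemma le_one_of_pow_le {t s : ℝ} (ht : 0 ≤ t)
    (h : ∀ ε : ℝ, 0 < ε → ∃ B : ℝ, ∀ m : ℕ, ∃ f, m ≤ f ∧ t ^ f ≤ B * Real.exp (ε * s * f)) :
    t ≤ 1 := by
  by_contra hlt
  push Not at hlt
  have hlog : 0 < Real.log t := Real.log_pos hlt
  obtain ⟨ε, hε, hεs⟩ : ∃ ε : ℝ, 0 < ε ∧ ε * s ≤ Real.log t / 2 := by
    refine ⟨Real.log t / (2 * (|s| + 1)), by positivity, ?_⟩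
    rw [div_mul_eq_mul_div, div_le_div_iff₀ (by positivity) (by norm_num)]
    have := le_abs_self s
    nlinarith
  obtain ⟨B, hB⟩ := h ε hε
  have hpos : 0 < Real.exp (Real.log t / 2) := Real.exp_pos _
  have hgt : 1 < Real.exp (Real.log t / 2) := Real.one_lt_exp_iff.2 (by positivity)
  obtain ⟨m, hm⟩ := pow_unbounded_of_one_lt B hgt
  obtain ⟨f, hf, hf'⟩ := hB m
  have h1 : t ^ f = Real.exp (Real.log t / 2) ^ f * Real.exp (Real.log t / 2) ^ f := by
    rw [← mul_pow, ← Real.exp_add, add_halves, Real.exp_log (by linarith)]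
  have h2 : Real.exp (ε * s * f) ≤ Real.exp (Real.log t / 2) ^ f := by
    rw [← Real.exp_nat_mul, mul_comm (f : ℝ)]
    exact Real.exp_le_exp.2 (mul_le_mul_of_nonneg_right hεs (Nat.cast_nonneg f))
  have h3 : B < Real.exp (Real.log t / 2) ^ f :=
    hm.trans_le (pow_le_pow_right₀ hgt.le hf)
  have h4 : 0 < Real.exp (Real.log t / 2) ^ f := pow_pos hpos f
  rw [h1] at hf'
  have h5 : B * Real.exp (ε * s * f) < Real.exp (Real.log t / 2) ^ f *
      Real.exp (Real.log t / 2) ^ f := by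
    rcases le_or_gt B 0 with hB0 | hB0
    · have : B * Real.exp (ε * s * f) ≤ 0 := mul_nonpos_of_nonpos_of_nonneg hB0 (Real.exp_pos _).le
      have := mul_pos h4 h4
      linarith
    · calc B * Real.exp (ε * s * f) ≤ B * Real.exp (Real.log t / 2) ^ f :=
            mul_le_mul_of_nonneg_left h2 hB0.le
        _ < _ := mul_lt_mul_of_pos_right h3 h4
  linarith

/-- If `‖u * v‖ = q` and all the sums of powers `u ^ f + v ^ f` are small then `‖u‖ ≤ √q`. -/
lemma norm_le {u v : ℂ} {q s : ℝ} (hq : 1 < q) (hs : 0 ≤ s) (huv : ‖u * v‖ = q)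
    (h : ∀ ε : ℝ, 0 < ε → ∃ A : ℝ, ∀ m : ℕ, ∃ f, m ≤ f ∧
      ‖u ^ f + v ^ f‖ ≤ A * Real.exp (ε * s * f) * √q ^ f) : ‖u‖ ≤ √q := by
  have hq0 : 0 < √q := Real.sqrt_pos.2 (by linarith)
  have hsq : √q * √q = q := Real.mul_self_sqrt (by linarith)
  by_contra hlt
  push Not at hlt
  have hv : ‖v‖ ≤ √q := by
    rw [norm_mul] at huv
    by_contra hv
    push Not at hv
    have := mul_lt_mul'' hlt hv hq0.le hq0.le
    linarith
  have key : ‖u‖ / √q ≤ 1 := by
    refine le_one_of_pow_le (s := s) (by positivity) fun ε hε => ?_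
    obtain ⟨A, hA⟩ := h ε hε
    refine ⟨1 + |A|, fun m => ?_⟩
    obtain ⟨f, hf, hf'⟩ := hA m
    refine ⟨f, hf, ?_⟩
    have hqf : 0 < √q ^ f := pow_pos hq0 f
    have h1 : ‖u‖ ^ f - √q ^ f ≤ ‖u ^ f + v ^ f‖ := by
      have h2 : ‖u ^ f‖ - ‖v ^ f‖ ≤ ‖u ^ f + v ^ f‖ := norm_sub_le_norm_add _ _
      rw [norm_pow, norm_pow] at h2
      have h3 : ‖v‖ ^ f ≤ √q ^ f := pow_le_pow_left₀ (norm_nonneg _) hv f
      linarith
    have hexp : 1 ≤ Real.exp (ε * s * f) := Real.one_le_exp (by positivity)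
    rw [div_pow, div_le_iff₀ hqf]
    have h4 : A * Real.exp (ε * s * f) * √q ^ f ≤ |A| * Real.exp (ε * s * f) * √q ^ f := by
      gcongr
      exact le_abs_self A
    have h5 : √q ^ f ≤ Real.exp (ε * s * f) * √q ^ f := le_mul_of_one_le_left hqf.le hexp
    calc ‖u‖ ^ f ≤ √q ^ f + A * Real.exp (ε * s * f) * √q ^ f := by linarith
      _ ≤ Real.exp (ε * s * f) * √q ^ f + |A| * Real.exp (ε * s * f) * √q ^ f := by linarith
      _ = (1 + |A|) * Real.exp (ε * s * f) * √q ^ f := by ring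
  rw [div_le_one hq0] at key
  linarith

/-- **Theorem.** -/
theorem ramanujan_iff : C.Ramanujan ↔ C.WeakBound := by
  constructor
  · intro h ε hε
    refine ⟨2, 0, fun x _ => (h x).trans ?_⟩
    have hq := C.one_lt x
    have h1 : √(C.q x) ≤ C.q x ^ (1 / 2 + ε) := by
      rw [Real.sqrt_eq_rpow]
      exact Real.rpow_le_rpow_of_exponent_le hq.le (by linarith)
    have h2 : 1 ≤ Real.exp (ε * C.deg x) := Real.one_le_exp (by positivity)
    have h3 : 0 ≤ √(C.q x) := Real.sqrt_nonneg _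
    calc 2 * √(C.q x) = 2 * 1 * √(C.q x) := by ring
      _ ≤ 2 * Real.exp (ε * C.deg x) * C.q x ^ (1 / 2 + ε) := by gcongr
  · intro h x
    have hq := C.one_lt x
    have hlog : 0 < Real.log (C.q x) := Real.log_pos hq
    have hs : 0 ≤ (C.deg x : ℝ) + Real.log (C.q x) := by positivity
    have key : ∀ ε : ℝ, 0 < ε → ∃ A : ℝ, ∀ m : ℕ, ∃ f, m ≤ f ∧ ‖C.α x ^ f + C.β x ^ f‖ ≤
        A * Real.exp (ε * ((C.deg x : ℝ) + Real.log (C.q x)) * f) * √(C.q x) ^ f := by
      intro ε hε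
      obtain ⟨A, D, hA⟩ := h ε hε
      refine ⟨A, fun m => ?_⟩
      obtain ⟨f, hf, y, hy1, hy2, hy3, hy4⟩ := C.baseChange x (max m D)
      refine ⟨f, (le_max_left _ _).trans hf, ?_⟩
      have h1 := hA y (by
        rw [hy1]
        exact (le_max_right _ _).trans (hf.trans (Nat.le_mul_of_pos_right f (C.deg_pos x))))
      rw [hy1, hy2, hy3, hy4] at h1
      refine h1.trans (le_of_eq ?_)
      have hq0 : 0 < C.q x := by linarith
      rw [mul_assoc, mul_assoc]
      congr 1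
      rw [Real.sqrt_eq_rpow, Real.rpow_def_of_pos (pow_pos hq0 f), Real.rpow_def_of_pos hq0,
        Real.log_pow, ← Real.exp_nat_mul, ← Real.exp_add, ← Real.exp_add]
      congr 1
      push_cast
      ring
    have hα : ‖C.α x‖ ≤ √(C.q x) := norm_le hq hs (C.norm_prod x) key
    have hβ : ‖C.β x‖ ≤ √(C.q x) := by
      refine norm_le (v := C.α x) hq hs (by rw [mul_comm]; exact C.norm_prod x) fun ε hε => ?_
      obtain ⟨A, hA⟩ := key ε hε
      refine ⟨A, fun m => ?_⟩
      obtain ⟨f, hf, hf'⟩ := hA m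
      exact ⟨f, hf, by rwa [add_comm]⟩
    calc ‖C.α x + C.β x‖ ≤ ‖C.α x‖ + ‖C.β x‖ := norm_add_le _ _
      _ ≤ 2 * √(C.q x) := by linarith

end HeckeClass

end Pool.Agent.X308.Bc
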